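import Pool.Agent.Lib.MP_75b31c_lc.N40.Iface

set_option autoImplicit false

/-!
# Making `h` injective on a large set (module INJ)
-/

namespace Pool.Agent.Lib.MP_75b31c_lc.N40.H89

open MeasureTheory Set

theorem inj : INJ_S := by
  classical
  intro Γ _ _ X _ _ _ hact μ _ h₀ hh₀ hfib ε hε
  obtain ⟨c, hc⟩ := exists_measurableEmbedding_real (ℕ → Bool)
  obtain ⟨φ, hφ⟩ := exists_measurableEmbedding_real X
  set h : X → ℝ := fun x => c (h₀ x) with hh_def
  have hh : Measurable h := hc.measurable.comp hh₀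
  have hfib' : ∀ x y, h x = h y → ∃ γ : Γ, γ • x = y := fun x y hxy => hfib x y (hc.injective hxy)
  set F : X → ℝ × ℝ := fun x => (h x, φ x) with hF
  have hFm : Measurable F := hh.prodMk hφ.measurable
  have hFi : Function.Injective F := fun x y hxy => hφ.injective (congrArg Prod.snd hxy)
  have hFe : MeasurableEmbedding F := hFm.measurableEmbedding hFi
  have hFE : MeasurableSet (F '' univ) := hFe.measurableSet_image.2 MeasurableSet.univ
  have hone : (μ.map F) (F '' univ) = 1 := by
    rw [hFe.map_apply, preimage_image_eq _ hFi]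
    exact measure_univ
  -- a large compact set
  have hlt : ENNReal.ofReal (1 - ε) < (μ.map F) (F '' univ) := by
    rw [hone]
    rw [← ENNReal.ofReal_one]
    exact (ENNReal.ofReal_lt_ofReal_iff one_pos).2 (by linarith)
  obtain ⟨K', hK'sub, hK'c, hK'pos⟩ := hFE.exists_lt_isCompact (μ := μ.map F) hlt
  set K : Set X := F ⁻¹' K' with hK
  have hKm : MeasurableSet K := hFm hK'c.measurableSet
  have hKbig : 1 - ε ≤ μ.real K := by
    have h1 : ENNReal.ofReal (1 - ε) ≤ μ K := by
      rw [hK, ← hFe.map_apply]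
      exact hK'pos.le
    rw [measureReal_def]
    exact (ENNReal.ofReal_le_iff_le_toReal (measure_ne_top _ _)).1 h1
  have hKc : μ.real Kᶜ ≤ ε := by
    rw [probReal_compl_eq_one_sub hKm]
    linarith
  set X₀ : Set X := K ∩ ⋂ γ : Γ, {x | γ • x ∈ K → h (γ • x) = h x → φ x ≤ φ (γ • x)} with hX₀
  have hX₀m : MeasurableSet X₀ := by
    refine hKm.inter (MeasurableSet.iInter fun γ => ?_)
    have e : {x : X | γ • x ∈ K → h (γ • x) = h x → φ x ≤ φ (γ • x)} =
        ({x | γ • x ∈ K}ᶜ ∪ {x | h (γ • x) = h x}ᶜ) ∪ {x | φ x ≤ φ (γ • x)} := by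
      ext x
      simp only [mem_setOf_eq, mem_union, mem_compl_iff]
      tauto
    rw [e]
    refine ((hact γ hKm).compl.union ?_).union ?_
    · exact (measurableSet_eq_fun (hh.comp (hact γ)) hh).compl
    · exact measurableSet_le hφ.measurable (hφ.measurable.comp (hact γ))
  have hX₀K : X₀ ⊆ K := inter_subset_left
  have hinj : Set.InjOn h X₀ := by
    intro x hx y hy hxy
    obtain ⟨γ, hγ⟩ := hfib' x y hxy
    have h1 : φ x ≤ φ y := by
      have := mem_iInter.1 hx.2 γ
      simp only [mem_setOf_eq, hγ] at this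
      exact this (hX₀K hy) hxy.symm
    obtain ⟨γ', hγ'⟩ := hfib' y x hxy.symm
    have h2 : φ y ≤ φ x := by
      have := mem_iInter.1 hy.2 γ'
      simp only [mem_setOf_eq, hγ'] at this
      exact this (hX₀K hx) hxy
    exact hφ.injective (le_antisymm h1 h2)
  have hcov : ∀ x ∈ K, ∃ γ : Γ, γ • x ∈ X₀ ∧ h (γ • x) = h x := by
    intro x hx
    have hne : ({h x} ×ˢ univ ∩ K' : Set (ℝ × ℝ)).Nonempty := ⟨F x, by simp [hF], hx⟩
    have hcc : IsCompact ({h x} ×ˢ univ ∩ K' : Set (ℝ × ℝ)) :=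
      hK'c.inter_left (isClosed_singleton.prod isClosed_univ)
    obtain ⟨p, hp, hmin⟩ := hcc.exists_isMinOn hne continuous_snd.continuousOn
    obtain ⟨y, hy, hyp⟩ := hK'sub hp.2
    have hyK : y ∈ K := by
      change F y ∈ K'
      rw [hyp]
      exact hp.2
    have hhy : h y = h x := by
      have : p.1 = h x := by
        have := hp.1
        simp only [mem_prod, mem_singleton_iff, mem_univ, and_true] at this
        exact this
      rw [← this, ← hyp]
    have hφy : φ y = p.2 := by rw [← hyp]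
    obtain ⟨γ, hγ⟩ := hfib' x y hhy.symm
    refine ⟨γ, ?_, by rw [hγ, hhy]⟩
    rw [hγ]
    refine ⟨hyK, mem_iInter.2 fun γ' hγ'K hγ'h => ?_⟩
    have : F (γ' • y) ∈ ({h x} ×ˢ univ ∩ K' : Set (ℝ × ℝ)) := by
      refine ⟨?_, hγ'K⟩
      simp only [hF, mem_prod, mem_singleton_iff, mem_univ, and_true]
      rw [hγ'h, hhy]
    have := hmin this
    simp only [mem_setOf_eq] at this
    rw [hφy]
    exact this
  -- the least index
  obtain ⟨e, he⟩ := exists_surjective_nat Γ
  set P : ℕ → Set X := fun i => {x | e i • x ∈ X₀} ∩ {x | h (e i • x) = h x} with hP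
  have hPm : ∀ i, MeasurableSet (P i) := fun i =>
    (hact (e i) hX₀m).inter (measurableSet_eq_fun (hh.comp (hact (e i))) hh)
  have hex : ∀ x, ∃ i, x ∈ P i ∨ ∀ k, x ∉ P k := by
    intro x
    by_cases hx : ∃ i, x ∈ P i
    · obtain ⟨i, hi⟩ := hx
      exact ⟨i, Or.inl hi⟩
    · exact ⟨0, Or.inr fun k hk => hx ⟨k, hk⟩⟩
  refine ⟨fun x => Nat.find (hex x), measurable_find hex fun k => ?_, K, hKm, hKc, ?_⟩
  · have e1 : {x | x ∈ P k ∨ ∀ j, x ∉ P j} = P k ∪ ⋂ j, (P j)ᶜ := by
      ext x
      simp only [mem_setOf_eq, mem_union, mem_iInter, mem_compl_iff]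
    rw [e1]
    exact (hPm k).union (MeasurableSet.iInter fun j => (hPm j).compl)
  · intro x hx x' hx' hn hhx
    have key : ∀ y ∈ K, y ∈ P (Nat.find (hex y)) := by
      intro y hy
      rcases Nat.find_spec (hex y) with h1 | h1
      · exact h1
      · exfalso
        obtain ⟨γ, hγ1, hγ2⟩ := hcov y hy
        obtain ⟨i, rfl⟩ := he γ
        exact h1 i ⟨hγ1, hγ2⟩
    have k1 := key x hx
    have k2 := key x' hx'
    have hn' : Nat.find (hex x) = Nat.find (hex x') := hn
    rw [← hn'] at k2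
    have hhx' : h x = h x' := by simp only [hh_def, hhx]
    have h3 : h (e (Nat.find (hex x)) • x) = h (e (Nat.find (hex x)) • x') := by
      have a1 : h (e (Nat.find (hex x)) • x) = h x := k1.2
      have a2 : h (e (Nat.find (hex x)) • x') = h x' := k2.2
      rw [a1, a2, hhx']
    have h4 := hinj k1.1 k2.1 h3
    exact smul_left_cancel _ h4

end Pool.Agent.Lib.MP_75b31c_lc.N40.H89
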