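import Pool.Agent.Lib.MP_75b31c_lc.N40.Iface

set_option autoImplicit false

/-!
# Tables (module TAB)
-/

namespace Pool.Agent.Lib.MP_75b31c_lc.N40.H89

open MeasureTheory Set Filter
open Pool.Agent.Lib.MP_75b31c_lc.H40 (pre pre_take pre_length)

/-- A function on strings which is zero outside a finite set is computable. -/
theorem computable_table (g : List Bool → ℕ) (L : List (List Bool)) :
    Primrec fun ρ : List Bool => if ρ ∈ L then g ρ else 0 := by
  induction L with
  | nil =>
    refine (Primrec.const 0).of_eq fun ρ => ?_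
    simp
  | cons a L ih =>
    have h1 : PrimrecPred fun ρ : List Bool => ρ = a := Primrec.eq.comp Primrec.id (Primrec.const a)
    refine (Primrec.ite h1 (Primrec.const (g a)) ih).of_eq fun ρ => ?_
    by_cases h2 : ρ = a
    · simp [h2]
    · simp [h2]

/-- The cylinder sets. -/
def Cyl : Set (Set (ℕ → Bool)) := {S | ∃ (m : ℕ) (A : Set (List Bool)), S = {z | pre z m ∈ A}}

theorem pre_eq_ofFn (z : ℕ → Bool) (m : ℕ) : pre z m = List.ofFn fun i : Fin m => z i := by
  apply List.ext_getElem
  · simp [pre]
  · intro i h1 h2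
    simp [pre]

theorem measurableSet_pre (m : ℕ) (A : Set (List Bool)) :
    MeasurableSet {z : ℕ → Bool | pre z m ∈ A} := by
  have h1 : Measurable fun z : ℕ → Bool => fun i : Fin m => z i :=
    measurable_pi_lambda _ fun i => measurable_pi_apply _
  have h2 : MeasurableSet {v : Fin m → Bool | List.ofFn v ∈ A} := (Set.toFinite _).measurableSet
  have h3 := h1 h2
  convert h3 using 1
  ext z
  simp [pre_eq_ofFn]

theorem isSetRing_cyl : IsSetRing Cyl where
  empty_mem := ⟨0, ∅, by simp⟩
  union_mem := by
    rintro s t ⟨m, A, rfl⟩ ⟨m', A', rfl⟩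
    refine ⟨max m m', {ρ | ρ.take m ∈ A ∨ ρ.take m' ∈ A'}, ?_⟩
    ext z
    simp only [mem_union, mem_setOf_eq, pre_take z (le_max_left m m'),
      pre_take z (le_max_right m m')]
  sdiff_mem := by
    rintro s t ⟨m, A, rfl⟩ ⟨m', A', rfl⟩
    refine ⟨max m m', {ρ | ρ.take m ∈ A ∧ ρ.take m' ∉ A'}, ?_⟩
    ext z
    simp only [mem_diff, mem_setOf_eq, pre_take z (le_max_left m m'),
      pre_take z (le_max_right m m')]

theorem univ_mem_cyl : (Set.univ : Set (ℕ → Bool)) ∈ Cyl := ⟨0, Set.univ, by simp⟩

theorem generateFrom_cyl :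
    (MeasurableSpace.pi : MeasurableSpace (ℕ → Bool)) = MeasurableSpace.generateFrom Cyl := by
  apply le_antisymm
  · refine iSup_le fun i => ?_
    rw [← measurable_iff_comap_le]
    refine @measurable_to_bool _ (MeasurableSpace.generateFrom Cyl) _ ?_
    refine MeasurableSpace.measurableSet_generateFrom ⟨i + 1, {ρ | ρ[i]? = some true}, ?_⟩
    ext z
    simp [pre]
  · refine MeasurableSpace.generateFrom_le ?_
    rintro s ⟨m, A, rfl⟩
    exact measurableSet_pre m A

theorem tab : TAB_S := by
  classical
  intro X _ _ μ _ h hh K hK hinj e he ε hε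
  set ν : Measure (ℕ → Bool) := (μ.restrict K).map h with hν
  set A : ℕ → Set (ℕ → Bool) := fun j => h '' (K ∩ e ⁻¹' {j}) with hA
  have hAm : ∀ j, MeasurableSet (A j) := fun j =>
    (hK.inter (he (measurableSet_singleton j))).image_of_measurable_injOn hh
      (hinj.mono inter_subset_left)
  -- the values of `e` are bounded with large probability
  have htend : Tendsto (fun J : ℕ => μ {x | J ≤ e x}) atTop (nhds 0) := by
    have h1 := tendsto_measure_iInter_atTop (μ := μ) (s := fun J : ℕ => {x | J ≤ e x})
      (fun J => (measurableSet_le measurable_const he).nullMeasurableSet)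
      (fun i j hij x hx => le_trans hij hx) ⟨0, measure_ne_top _ _⟩
    have h2 : ⋂ J : ℕ, {x | J ≤ e x} = ∅ := by
      ext x
      simp only [mem_iInter, mem_setOf_eq, mem_empty_iff_false, iff_false, not_forall, not_le]
      exact ⟨e x + 1, Nat.lt_succ_self _⟩
    rwa [h2, measure_empty] at h1
  obtain ⟨J, hJ⟩ : ∃ J : ℕ, μ {x | J ≤ e x} < ENNReal.ofReal (ε / 2) :=
    ((tendsto_order.1 htend).2 _ (by simpa using hε)).exists
  -- approximation by cylinders
  have happ : ∀ j, ∃ (m : ℕ) (S : Set (List Bool)),
      ν (symmDiff {z | pre z m ∈ S} (A j)) < ENNReal.ofReal (ε / (2 * (J + 1))) := by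
    intro j
    obtain ⟨t, ⟨m, S, rfl⟩, ht⟩ := exists_measure_symmDiff_lt_of_generateFrom_isSetRing (μ := ν)
      isSetRing_cyl ⟨{Set.univ}, Set.countable_singleton _,
        Set.singleton_subset_iff.2 univ_mem_cyl, by simp⟩ generateFrom_cyl (hAm j)
      (ε := ENNReal.ofReal (ε / (2 * (J + 1)))) (by
        rw [ENNReal.ofReal_pos]
        positivity)
    exact ⟨m, S, ht⟩
  choose mm S hS using happ
  set m : ℕ := (Finset.range J).sup mm with hm
  have hmm : ∀ j, j < J → mm j ≤ m := fun j hj => Finset.le_sup (Finset.mem_range.2 hj)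
  -- the table
  set g : List Bool → ℕ := fun ρ => if hx : ∃ j, j < J ∧ ρ.take (mm j) ∈ S j then Nat.find hx
    else 0 with hg
  set L : List (List Bool) := (List.finite_length_le Bool m).toFinset.toList with hL
  have hLmem : ∀ ρ : List Bool, ρ ∈ L ↔ ρ.length ≤ m := by
    intro ρ
    simp [hL]
  refine ⟨m, fun ρ => if ρ.take m ∈ L then g (ρ.take m) else 0, ?_, ?_, ?_⟩
  · exact ((computable_table g L).comp
      (Primrec.list_take.comp (Primrec.const m) Primrec.id)).to_comp
  · intro ρ
    simp only [List.take_take, min_self]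
  · -- the error
    have hsub : {x | x ∈ K ∧ (if (pre (h x) m).take m ∈ L then g ((pre (h x) m).take m) else 0) ≠
        e x} ⊆ {x | J ≤ e x} ∪
          ⋃ j ∈ Finset.range J, K ∩ h ⁻¹' (symmDiff {z | pre z (mm j) ∈ S j} (A j)) := by
      rintro x ⟨hxK, hxe⟩
      by_cases hxJ : J ≤ e x
      · exact Or.inl hxJ
      right
      push Not at hxJ
      have h1 : (pre (h x) m).take m ∈ L := by
        rw [hLmem, List.length_take]
        exact min_le_left _ _
      have h2 : (pre (h x) m).take m = pre (h x) m := pre_take _ le_rfl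
      rw [if_pos h1, h2] at hxe
      by_contra hcon
      simp only [mem_iUnion, not_exists, Finset.mem_range] at hcon
      have h3 : ∀ j, j < J → (pre (h x) (mm j) ∈ S j ↔ h x ∈ A j) := by
        intro j hj
        by_contra h4
        apply hcon j hj
        refine ⟨hxK, ?_⟩
        rw [mem_preimage, mem_symmDiff]
        simp only [mem_setOf_eq]
        tauto
      have h5 : ∀ j, h x ∈ A j ↔ e x = j := by
        intro j
        constructor
        · rintro ⟨y, ⟨hyK, hye⟩, hyx⟩
          have := hinj hyK hxK hyx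
          rw [← this]
          exact hye
        · intro h6
          exact ⟨x, ⟨hxK, h6⟩, rfl⟩
      have h6 : ∃ j, j < J ∧ (pre (h x) m).take (mm j) ∈ S j := by
        refine ⟨e x, hxJ, ?_⟩
        rw [pre_take _ (hmm _ hxJ), h3 _ hxJ, h5]
      apply hxe
      simp only [hg]
      rw [dif_pos h6]
      obtain ⟨h7, h8⟩ := Nat.find_spec h6
      rw [pre_take _ (hmm _ h7), h3 _ h7, h5] at h8
      exact h8.symm
    have hmeas : ∀ j, μ (K ∩ h ⁻¹' (symmDiff {z | pre z (mm j) ∈ S j} (A j))) ≤
        ENNReal.ofReal (ε / (2 * (J + 1))) := by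
      intro j
      have h1 : MeasurableSet (symmDiff {z | pre z (mm j) ∈ S j} (A j)) :=
        (measurableSet_pre _ _).symmDiff (hAm j)
      have h2 := (hS j).le
      rw [hν, Measure.map_apply hh h1, Measure.restrict_apply (hh h1), inter_comm] at h2
      exact h2
    have htot : μ {x | x ∈ K ∧ (if (pre (h x) m).take m ∈ L then g ((pre (h x) m).take m)
        else 0) ≠ e x} ≤ ENNReal.ofReal ε := by
      calc _ ≤ μ ({x | J ≤ e x} ∪
          ⋃ j ∈ Finset.range J, K ∩ h ⁻¹' (symmDiff {z | pre z (mm j) ∈ S j} (A j))) :=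
            measure_mono hsub
        _ ≤ μ {x | J ≤ e x} +
          μ (⋃ j ∈ Finset.range J, K ∩ h ⁻¹' (symmDiff {z | pre z (mm j) ∈ S j} (A j))) :=
            measure_union_le _ _
        _ ≤ ENNReal.ofReal (ε / 2) + ∑ j ∈ Finset.range J, ENNReal.ofReal (ε / (2 * (J + 1))) := by
            refine add_le_add hJ.le ?_
            refine (measure_biUnion_finset_le _ _).trans ?_
            exact Finset.sum_le_sum fun j _ => hmeas j
        _ = ENNReal.ofReal (ε / 2) + ENNReal.ofReal (J * (ε / (2 * (J + 1)))) := by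
            rw [Finset.sum_const, Finset.card_range, nsmul_eq_mul,
              ENNReal.ofReal_mul (Nat.cast_nonneg J), ENNReal.ofReal_natCast]
        _ ≤ ENNReal.ofReal (ε / 2) + ENNReal.ofReal (ε / 2) := by
            refine add_le_add le_rfl (ENNReal.ofReal_le_ofReal ?_)
            have hJ0 : (0 : ℝ) ≤ J := Nat.cast_nonneg J
            rw [mul_div_assoc', div_le_div_iff₀ (by positivity) (by norm_num)]
            nlinarith
        _ = ENNReal.ofReal ε := by
            rw [← ENNReal.ofReal_add (by positivity) (by positivity)]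
            congr 1
            ring
    rw [measureReal_def]
    exact ENNReal.toReal_le_of_le_ofReal hε.le htot

end Pool.Agent.Lib.MP_75b31c_lc.N40.H89
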